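import Pool.Agent.H87.CcsD

namespace Pool.Agent.Results.MP_d10958_an.No

open Pool.Agent.H87.CcsD in
/-- No real or complex normed space with property (A) has a ccs `Δ`-point. -/
theorem result.{u} (𝕜 : Type) [RCLike 𝕜] (X : Type u) [NormedAddCommGroup X] [NormedSpace 𝕜 X]
    [NormedSpace ℝ X] [IsScalarTower ℝ 𝕜 X] (A : Set (X →L[𝕜] X))
    (hfin : ∀ T ∈ A, FiniteDimensional 𝕜 (LinearMap.range (T : X →ₗ[𝕜] X)))
    (hb : ∃ c < (2 : ℝ), ∀ T ∈ A, ‖ContinuousLinearMap.id 𝕜 X - T‖ ≤ c)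
    (happ : ∀ ε > (0 : ℝ), ∀ x : X, ∃ T ∈ A, ‖x - T x‖ < ε) (x : X) (hx : ‖x‖ = 1) :
    ¬ CcsDelta 𝕜 x := by
  intro h
  obtain ⟨c, c2, hc⟩ := hb
  have e0 : 0 < (2 - c) / 3 := by linarith
  obtain ⟨T, hT, h1⟩ := happ _ e0 x
  have := hfin T hT
  have : FiniteDimensional ℝ (LinearMap.range (T : X →ₗ[𝕜] X)) := Module.Finite.trans 𝕜 _
  obtain ⟨z, z1, z2, z3⟩ := core hx h
    ((T.codRestrict (LinearMap.range (T : X →ₗ[𝕜] X)) fun y => ⟨y, rfl⟩).restrictScalars ℝ) e0 e0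
  change ‖T (z - x)‖ < _ at z2
  have a1 := (ContinuousLinearMap.id 𝕜 X - T).le_of_opNorm_le_of_le (hc T hT) z1
  have e : x - z = (x - T x) - T (z - x) - (ContinuousLinearMap.id 𝕜 X - T) z := by
    simp only [sub_apply, ContinuousLinearMap.id_apply, map_sub]; abel
  have a2 := norm_sub_le ((x - T x) - T (z - x)) ((ContinuousLinearMap.id 𝕜 X - T) z)
  have a3 := norm_sub_le (x - T x) (T (z - x))
  rw [← e] at a2
  linarith

end Pool.Agent.Results.MP_d10958_an.No
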